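import Pool.Agent.J4H13.LA.Cons

/-!
# Consequences of the vanishing of the forms of a double plane
-/

set_option autoImplicit false

open FF

namespace Pool.Agent.J4H13.BD

open Pool.Agent.J4H13.BC Pool.Agent.J4H13.LA Pool.Agent.W602.GT Pool.Agent.W603.LV

variable {K : Type} [Field K] [Algebra ℂ K]

/-- there are no regular 2-forms `A dx dy / v` -/
def NoTwo (x y v : K) : Prop :=
  ∀ A ∈ IntermediateField.adjoin ℂ ({x, y} : Set K), (∀ P : Place ℂ K, Divisorial 2 P →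
    RegAt P fun D : Fin 2 → Derivation ℂ K K => wedge (D 0) (D 1) x y * (A / v)) → A = 0

/-- there are no regular 1-forms `(A dx + B dy) / v` -/
def NoOne (x y v : K) : Prop :=
  ∀ A ∈ IntermediateField.adjoin ℂ ({x, y} : Set K),
    ∀ B ∈ IntermediateField.adjoin ℂ ({x, y} : Set K), (∀ P : Place ℂ K, Divisorial 2 P →
      ∀ D : Derivation ℂ K K, DerReg P D → P.Reg ((A * D x + B * D y) / v)) → A = 0 ∧ B = 0

lemma gp_mem (x y : K) (i : Fin 3) : gp x y i ∈ IntermediateField.adjoin ℂ ({x, y} : Set K) := by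
  fin_cases i
  · exact one_mem _
  · exact IntermediateField.subset_adjoin _ _ (Or.inl rfl)
  · exact IntermediateField.subset_adjoin _ _ (Or.inr rfl)

lemma aeval_mem (x y : K) (Q : P3) :
    MvPolynomial.aeval (gp x y) Q ∈ IntermediateField.adjoin ℂ ({x, y} : Set K) := by
  have h1 : MvPolynomial.aeval (gp x y) Q ∈ Algebra.adjoin ℂ (Set.range (gp x y)) := by
    rw [Algebra.adjoin_range_eq_range_aeval]
    exact ⟨Q, rfl⟩
  have h2 : Algebra.adjoin ℂ (Set.range (gp x y)) ≤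
      (IntermediateField.adjoin ℂ ({x, y} : Set K)).toSubalgebra := by
    apply Algebra.adjoin_le
    rintro _ ⟨i, rfl⟩
    exact gp_mem x y i
  exact h2 h1

lemma ev_mem' (x y : K) (v : V3) :
    ev (gp x y) v ∈ IntermediateField.adjoin ℂ ({x, y} : Set K) := by
  unfold ev
  exact sum_mem fun i _ => mul_mem ((IntermediateField.adjoin ℂ ({x, y} : Set K)).algebraMap_mem _)
    (gp_mem x y i)

/-- **The vanishing of the 2-forms forces a point of high multiplicity.** -/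
theorem exists_point' {x y : K} (hxy : AlgebraicIndependent ℂ ![x, y]) {d : ℕ}
    (hd : 3 ≤ d) {l : Fin (2 * d) → V3} (hl : ∀ i j, i ≠ j → LinearIndependent ℂ ![l i, l j])
    {v : K} (hpg : NoTwo x y v) (hv0 : v ≠ 0) (hv : v ^ 2 = ∏ i, ev (gp x y) (l i)) :
    ∃ W : Submodule ℂ V3, Module.finrank ℂ W ≤ 2 ∧ 2 * d - 2 ≤ (thr l W).card := by
  classical
  by_contra hcon
  push Not at hcon
  obtain ⟨Q, hQ0, hQ, hmult⟩ := key hd hl (fun W hW => by
    have := hcon W hW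
    omega)
  exact aeval_gp_ne_zero hxy hQ hQ0 (hpg _ (aeval_mem x y Q) (fun P _ D hD =>
    reg_two hxy hd hl hv0 hv hQ hmult P (hD 0) (hD 1)))

/-- **The vanishing of the 1-forms excludes pencils.** -/
theorem no_pencil' {x y : K} (hxy : AlgebraicIndependent ℂ ![x, y]) {d : ℕ}
    (hd : 2 ≤ d) {l : Fin (2 * d) → V3} (hl : ∀ i j, i ≠ j → LinearIndependent ℂ ![l i, l j])
    {v : K} (hq : NoOne x y v) (hv0 : v ≠ 0) (hv : v ^ 2 = ∏ i, ev (gp x y) (l i)) {m₀ m₁ : V3}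
    (hm : LinearIndependent ℂ ![m₀, m₁]) (hspan : ∀ i, l i ∈ Submodule.span ℂ {m₀, m₁}) :
    False := by
  classical
  choose a b hab using fun i => Submodule.mem_span_pair.1 (hspan i)
  obtain ⟨M₀, hM₀⟩ : ∃ M₀, M₀ = ev (gp x y) m₀ := ⟨_, rfl⟩
  obtain ⟨M₁, hM₁⟩ : ∃ M₁, M₁ = ev (gp x y) m₁ := ⟨_, rfl⟩
  have hm' := LinearIndependent.pair_iff.1 hm
  have hlf : ∀ s t : ℂ, lf M₀ M₁ s t = ev (gp x y) (s • m₀ + t • m₁) := by
    intro s t
    unfold lf
    rw [ev_add, ev_smul, ev_smul, hM₀, hM₁]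
  have hne : ∀ s t : ℂ, (s ≠ 0 ∨ t ≠ 0) → lf M₀ M₁ s t ≠ 0 := by
    intro s t hst
    rw [hlf]
    apply ev_gp_ne_zero hxy
    intro h
    obtain ⟨h1, h2⟩ := hm' s t h
    rcases hst with h3 | h3
    · exact h3 h1
    · exact h3 h2
  have hdet : ∀ i j, i ≠ j → a i * b j - a j * b i ≠ 0 := by
    intro i j hij h
    have h1 := LinearIndependent.pair_iff.1 (hl i j hij)
    have h2 := h1 (a j) (-(a i)) (by
      rw [← hab i, ← hab j]
      have h3 : a j • (a i • m₀ + b i • m₁) + -(a i) • (a j • m₀ + b j • m₁) =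
          (-(a i * b j - a j * b i)) • m₁ := by
        module
      rw [h3, h, neg_zero, zero_smul])
    have h3 := h1 (b j) (-(b i)) (by
      rw [← hab i, ← hab j]
      have h3 : b j • (a i • m₀ + b i • m₁) + -(b i) • (a j • m₀ + b j • m₁) =
          (a i * b j - a j * b i) • m₀ := by
        module
      rw [h3, h, zero_smul])
    have h4 : l j = 0 := by
      rw [← hab j, h2.1, h3.1, zero_smul, zero_smul, add_zero]
    exact (hl i j hij).ne_zero 1 h4
  have hv' : v ^ 2 = ∏ i, lf M₀ M₁ (a i) (b i) := by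
    rw [hv]
    refine Finset.prod_congr rfl fun i _ => ?_
    rw [hlf, hab]
  have hDev : ∀ (D : Derivation ℂ K K) (w : V3), D (ev (gp x y) w) =
      algebraMap ℂ K (w 1) * D x + algebraMap ℂ K (w 2) * D y := by
    intro D w
    rw [ev_gp, map_add, map_add, D.leibniz, D.leibniz, D.map_algebraMap, D.map_algebraMap,
      D.map_algebraMap, smul_zero, smul_zero, add_zero, add_zero, zero_add, smul_eq_mul,
      smul_eq_mul]
  have hM₀0 : M₀ ≠ 0 := by
    have := hne 1 0 (Or.inl one_ne_zero)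
    unfold lf at this
    simpa using this
  let E := IntermediateField.adjoin ℂ ({x, y} : Set K)
  have hM₀E : M₀ ∈ E := by
    rw [hM₀]
    exact ev_mem' x y m₀
  have hM₁E : M₁ ∈ E := by
    rw [hM₁]
    exact ev_mem' x y m₁
  have hcE : ∀ c : ℂ, algebraMap ℂ K c ∈ E := fun c => E.algebraMap_mem c
  obtain ⟨hA, hB⟩ := hq
    ((M₀ * algebraMap ℂ K (m₁ 1) - M₁ * algebraMap ℂ K (m₀ 1)) * M₀ ^ (d - 2))
    (mul_mem (sub_mem (mul_mem hM₀E (hcE _)) (mul_mem hM₁E (hcE _))) (pow_mem hM₀E _))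
    ((M₀ * algebraMap ℂ K (m₁ 2) - M₁ * algebraMap ℂ K (m₀ 2)) * M₀ ^ (d - 2))
    (mul_mem (sub_mem (mul_mem hM₀E (hcE _)) (mul_mem hM₁E (hcE _))) (pow_mem hM₀E _))
    (fun P _ D hD => by
      have h1 := reg_one hne hd hdet hv0 hv' P hD
      have h2 : (M₀ * D M₁ - M₁ * D M₀) * (M₀ ^ (d - 2) / v) =
          ((M₀ * algebraMap ℂ K (m₁ 1) - M₁ * algebraMap ℂ K (m₀ 1)) * M₀ ^ (d - 2) * D x +
            (M₀ * algebraMap ℂ K (m₁ 2) - M₁ * algebraMap ℂ K (m₀ 2)) * M₀ ^ (d - 2) * D y) / v := by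
        have h3 : D M₀ = algebraMap ℂ K (m₀ 1) * D x + algebraMap ℂ K (m₀ 2) * D y := by
          rw [hM₀, hDev]
        have h4 : D M₁ = algebraMap ℂ K (m₁ 1) * D x + algebraMap ℂ K (m₁ 2) * D y := by
          rw [hM₁, hDev]
        rw [h3, h4]
        ring
      rw [← h2]
      exact h1)
  have e0 : lf M₀ M₁ (m₁ 1) (-(m₀ 1)) = 0 := by
    unfold lf
    rw [map_neg]
    rcases mul_eq_zero.1 hA with h | h
    · linear_combination h
    · exact absurd h (pow_ne_zero _ hM₀0)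
  have e1 : lf M₀ M₁ (m₁ 2) (-(m₀ 2)) = 0 := by
    unfold lf
    rw [map_neg]
    rcases mul_eq_zero.1 hB with h | h
    · linear_combination h
    · exact absurd h (pow_ne_zero _ hM₀0)
  have hz0 : m₁ 1 = 0 ∧ m₀ 1 = 0 := by
    by_contra hcon
    rw [not_and_or] at hcon
    exact hne _ _ (hcon.imp id (fun h => neg_ne_zero.2 h)) e0
  have hz1 : m₁ 2 = 0 ∧ m₀ 2 = 0 := by
    by_contra hcon
    rw [not_and_or] at hcon
    exact hne _ _ (hcon.imp id (fun h => neg_ne_zero.2 h)) e1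
  have h5 := hm' (m₁ 0) (-(m₀ 0)) (by
    funext i
    fin_cases i
    · change m₁ 0 * m₀ 0 + -(m₀ 0) * m₁ 0 = 0
      ring
    · change m₁ 0 * m₀ 1 + -(m₀ 0) * m₁ 1 = 0
      rw [hz0.1, hz0.2]
      ring
    · change m₁ 0 * m₀ 2 + -(m₀ 0) * m₁ 2 = 0
      rw [hz1.1, hz1.2]
      ring)
  have h6 : m₁ = 0 := by
    funext i
    fin_cases i
    · exact h5.1
    · exact hz0.1
    · exact hz1.1
  exact hm.ne_zero 1 h6

end Pool.Agent.J4H13.BD
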