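import Pool.Agent.W602.GT.Defs

/-!
# The action of automorphisms on differential forms
-/

set_option autoImplicit false

open FF

namespace Pool.Agent.J4H13.BD

open Pool.Agent.W602.GT

variable {K : Type} [Field K] [Algebra ℂ K]

/-- the image `g⁻¹ ∘ D ∘ g` of the rational vector field `D` under the automorphism `g` -/
def conjDer (g : K ≃ₐ[ℂ] K) (D : Derivation ℂ K K) : Derivation ℂ K K where
  toFun f := g.symm (D (g f))
  map_add' f₁ f₂ := by simp only [map_add]
  map_smul' c f := by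
    change g.symm (D (g (c • f))) = c • g.symm (D (g f))
    rw [map_smul, D.map_smul, map_smul]
  map_one_eq_zero' := by
    change g.symm (D (g 1)) = 0
    rw [map_one, Derivation.map_one_eq_zero, map_zero]
  leibniz' f₁ f₂ := by
    change g.symm (D (g (f₁ * f₂))) = f₁ • g.symm (D (g f₂)) + f₂ • g.symm (D (g f₁))
    rw [map_mul, D.leibniz]
    simp only [smul_eq_mul, map_add, map_mul, AlgEquiv.symm_apply_apply]

lemma conjDer_apply (g : K ≃ₐ[ℂ] K) (D : Derivation ℂ K K) (f : K) :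
    conjDer g D f = g.symm (D (g f)) := rfl

/-- The combination `∑ c j * g j` of automorphisms acts as zero on the regular 2-forms: `∑ c j • (g j)^* ω = 0`
for all 2-forms `ω` which are regular at all prime divisors; `g^* ω` maps the vector fields `D 0`, `D 1` to
`g (ω (g⁻¹ ∘ D 0 ∘ g, g⁻¹ ∘ D 1 ∘ g))`. -/
def KillsTwo {n : ℕ} (c : Fin n → ℚ) (g : Fin n → K ≃ₐ[ℂ] K) : Prop :=
  ∀ ω : (Fin 2 → Derivation ℂ K K) → K, IsPluri 1 ω →
    (∀ P : Place ℂ K, Divisorial 2 P → RegAt P ω) →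
    ∀ D : Fin 2 → Derivation ℂ K K, ∑ j, (c j : K) * g j (ω fun i => conjDer (g j) (D i)) = 0

/-- The same for the regular 1-forms. -/
def KillsOne {n : ℕ} (c : Fin n → ℚ) (g : Fin n → K ≃ₐ[ℂ] K) : Prop :=
  ∀ η : Derivation ℂ K K →ₗ[K] K,
    (∀ P : Place ℂ K, Divisorial 2 P → ∀ D, DerReg P D → P.Reg (η D)) →
    ∀ D : Derivation ℂ K K, ∑ j, (c j : K) * g j (η (conjDer (g j) D)) = 0

end Pool.Agent.J4H13.BD
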