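import Pool.Agent.J4H13.BC.Machine

/-!
# The machine for the elements of the group ring
-/

set_option autoImplicit false

open MvPolynomial

namespace Pool.Agent.J4H13.BD

open Pool.Agent.Helper397.HK Pool.Agent.J4H13.BC

open scoped Classical in
/-- **The machine for correspondences.** -/
theorem machine_corr {K : Type} [Field K] [Algebra ℂ K] (G : Type) [Group G] [Fintype G]
    [MulSemiringAction G K] [SMulCommClass G ℂ K] (Γ : G → ℚ) {ι : Type} [Fintype ι]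
    (H : ι → Subgroup G)
    (c : ι → ℚ) (hcoef : ∀ σ : G, ∑ i, (if σ ∈ H i then c i else 0) = Γ σ)
    (huni : ∀ i, ∃ (m : ℕ) (j : FixedPoints.subalgebra ℂ K (H i) →ₐ[ℂ] FractionRing (PR m)),
      Function.Injective j) {N : ℕ} (ξ : Fin (N + 1) → K) :
    ∃ (B : Subalgebra ℂ K) (hB : ∀ (σ : G) i, σ • ξ i ∈ B), B.FG ∧
      ∀ (Y : ProjVar N), Y.OnCone ξ → ∀ (φ φ' : B →ₐ[ℂ] ℂ) (p p' : G → Y.Pts ℂ),
        (∀ σ i, (p σ).1 i = φ ⟨σ • ξ i, hB σ i⟩) → (∀ σ i, (p' σ).1 i = φ' ⟨σ • ξ i, hB σ i⟩) →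
        ∑ σ, Γ σ • cls (p σ) = ∑ σ, Γ σ • cls (p' σ) := by
  -- the algebra
  obtain ⟨A, hAdef⟩ : ∃ A : Subalgebra ℂ K,
    A = Algebra.adjoin ℂ (Set.range fun p : G × Fin (N + 1) => p.1 • ξ p.2) := ⟨_, rfl⟩
  have hAst : ∀ (σ : G) (a : K), a ∈ A → σ • a ∈ A := by
    intro σ a ha
    have h1 : A ≤ A.comap (MulSemiringAction.toAlgHom ℂ K σ) := by
      conv_lhs => rw [hAdef]
      apply Algebra.adjoin_le
      rintro _ ⟨⟨τ, i⟩, rfl⟩
      change σ • (τ • ξ i) ∈ A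
      rw [smul_smul, hAdef]
      exact Algebra.subset_adjoin ⟨(σ * τ, i), rfl⟩
    exact h1 ha
  have hAσ : ∀ (σ : G) i, σ • ξ i ∈ A := by
    intro σ i
    rw [hAdef]
    exact Algebra.subset_adjoin ⟨(σ, i), rfl⟩
  have hAξ : ∀ i, ξ i ∈ A := by
    intro i
    have := hAσ 1 i
    rwa [one_smul] at this
  have hAfg : A.FG := by
    rw [hAdef]
    exact Subalgebra.fg_def.2 ⟨_, Set.finite_range _, rfl⟩
  have hAft : Algebra.FiniteType ℂ A := by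
    rw [← Subalgebra.fg_iff_finiteType]
    exact hAfg
  let _ : MulSemiringAction G A := stableAction A hAst
  have hcomm : SMulCommClass G ℂ A := ⟨fun σ z a => Subtype.ext (smul_comm σ z a.1)⟩
  let η : Fin (N + 1) → A := fun i => ⟨ξ i, hAξ i⟩
  -- the orbits
  have horb : ∀ i : ι, ∃ h : A, h ≠ 0 ∧ ∀ (Y : ProjVar N), Y.OnCone η → ∀ φ φ' : A →ₐ[ℂ] ℂ,
      φ h ≠ 0 → φ' h ≠ 0 →
      (∀ σ : G, (fun i => act φ σ (η i)) ∈ Y.Pts ℂ) →
      (∀ σ : G, (fun i => act φ' σ (η i)) ∈ Y.Pts ℂ) →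
      ∑ σ : H i, hc Y η (act φ (σ : G)) = ∑ σ : H i, hc Y η (act φ' (σ : G)) := by
    intro i
    obtain ⟨m, j, hj⟩ := huni i
    let ε : FixedPoints.subalgebra ℂ A (H i) →ₐ[ℂ] FixedPoints.subalgebra ℂ K (H i) :=
      (A.val.comp (FixedPoints.subalgebra ℂ A (H i)).val).codRestrict _ (by
        rintro ⟨a, ha⟩ σ
        exact congrArg Subtype.val (ha σ))
    have hε : Function.Injective ε := by
      intro a b hab
      have h1 : (a.1.1 : K) = b.1.1 :=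
        congrArg (fun z : FixedPoints.subalgebra ℂ K (H i) => (z : K)) hab
      exact Subtype.ext (Subtype.ext h1)
    obtain ⟨h, hh, hor⟩ := orbit_sum (A := A) (H := H i) (j.comp ε) (hj.comp hε)
    refine ⟨h, hh, ?_⟩
    intro Y hη φ φ' hφ hφ' hp hp'
    exact hor hη φ φ' hφ hφ' (fun σ => hp σ) (fun σ => hp' σ)
  choose h hh hor using horb
  obtain ⟨h₀, hh₀⟩ : ∃ h₀ : A, h₀ = ∏ i, h i := ⟨_, rfl⟩
  have hh₀0 : h₀ ≠ 0 := by
    rw [hh₀]
    exact Finset.prod_ne_zero_iff.2 fun i _ => hh i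
  have hgoodh : ∀ φ : A →ₐ[ℂ] ℂ, φ h₀ ≠ 0 → ∀ i, φ (h i) ≠ 0 := by
    intro φ hφ i h1
    apply hφ
    rw [hh₀, map_prod]
    exact Finset.prod_eq_zero (Finset.mem_univ i) h1
  have hsum : ∀ (Y : ProjVar N) (φ : A →ₐ[ℂ] ℂ), ∑ σ, Γ σ • hc Y η (act φ σ) =
      ∑ i, c i • ∑ σ : H i, hc Y η (act φ (σ : G)) := by
    intro Y φ
    have h1 : ∀ i, ∑ σ : H i, hc Y η (act φ (σ : G)) =
        ∑ σ : G, if σ ∈ H i then hc Y η (act φ σ) else 0 := by
      intro i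
      rw [← Finset.sum_filter]
      exact (Finset.sum_subtype (Finset.univ.filter fun σ => σ ∈ H i) (p := fun σ => σ ∈ H i)
        (fun x => by simp) (fun σ => hc Y η (act φ σ))).symm
    simp only [h1, Finset.smul_sum]
    rw [Finset.sum_comm]
    refine Finset.sum_congr rfl fun σ _ => ?_
    rw [← hcoef σ, Finset.sum_smul]
    refine Finset.sum_congr rfl fun i _ => ?_
    by_cases hi : σ ∈ H i
    · rw [if_pos hi, if_pos hi]
    · rw [if_neg hi, if_neg hi, smul_zero, zero_smul]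
  -- the larger algebra
  obtain ⟨B, hBdef⟩ : ∃ B : Subalgebra ℂ K, B = A ⊔ Algebra.adjoin ℂ {((h₀ : K))⁻¹} := ⟨_, rfl⟩
  have hAB : A ≤ B := by
    rw [hBdef]
    exact le_sup_left
  have hinv : ((h₀ : K))⁻¹ ∈ B := by
    rw [hBdef]
    exact (le_sup_right : Algebra.adjoin ℂ {((h₀ : K))⁻¹} ≤ _)
      (Algebra.subset_adjoin (Set.mem_singleton _))
  refine ⟨B, fun σ i => hAB (hAσ σ i), ?_, ?_⟩
  · rw [hBdef]
    exact hAfg.sup (Subalgebra.fg_def.2 ⟨_, Set.finite_singleton _, rfl⟩)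
  intro Y hξY φ φ' p p' hp hp'
  have hη : Y.OnCone η := ProjVar.OnCone.of_injective A.val Subtype.val_injective hξY
  have hres : ∀ ψ : B →ₐ[ℂ] ℂ, ψ (Subalgebra.inclusion hAB h₀) ≠ 0 := by
    intro ψ hψ
    have h1 : Subalgebra.inclusion hAB h₀ * ⟨_, hinv⟩ = 1 := by
      apply Subtype.ext
      change (h₀ : K) * ((h₀ : K))⁻¹ = 1
      exact mul_inv_cancel₀ fun h2 => hh₀0 (Subtype.ext h2)
    have h2 := congrArg ψ h1
    rw [map_mul, hψ, zero_mul, map_one] at h2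
    exact zero_ne_one h2
  have hpt : ∀ (ψ : B →ₐ[ℂ] ℂ) (q : G → Y.Pts ℂ),
      (∀ σ i, (q σ).1 i = ψ ⟨σ • ξ i, hAB (hAσ σ i)⟩) → ∀ σ,
      (q σ).1 = fun i => act (ψ.comp (Subalgebra.inclusion hAB)) σ (η i) := by
    intro ψ q hq σ
    funext i
    rw [hq]
    rfl
  have hval : ∀ (ψ : B →ₐ[ℂ] ℂ) (q : G → Y.Pts ℂ),
      (∀ σ i, (q σ).1 i = ψ ⟨σ • ξ i, hAB (hAσ σ i)⟩) → ∑ σ, Γ σ • cls (q σ) =
      ∑ σ, Γ σ • hc Y η (act (ψ.comp (Subalgebra.inclusion hAB)) σ) := by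
    intro ψ q hq
    refine Finset.sum_congr rfl fun σ _ => ?_
    have h1 := hpt ψ q hq σ
    have h2 : (fun i => act (ψ.comp (Subalgebra.inclusion hAB)) σ (η i)) ∈ Y.Pts ℂ := by
      rw [← h1]
      exact (q σ).2
    obtain ⟨h3, h4⟩ := hasCls_hc h2
    rw [← h4]
    congr 2
    exact Subtype.ext h1
  rw [hval φ p hp, hval φ' p' hp', hsum, hsum]
  refine Finset.sum_congr rfl fun i _ => ?_
  congr 1
  refine hor i Y hη _ _ (hgoodh _ (hres φ) i) (hgoodh _ (hres φ') i) ?_ ?_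
  · intro σ
    rw [← hpt φ p hp σ]
    exact (p σ).2
  · intro σ
    rw [← hpt φ' p' hp' σ]
    exact (p' σ).2

end Pool.Agent.J4H13.BD
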