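import Pool.Agent.J4H13.LA.Main
import Pool.Agent.J4H13.BD.ConsB
import Pool.Agent.J4H13.BD.DefsC
import Pool.Agent.J4H13.BD.KummerCorr

/-!
# Correspondences on the covers of the plane branched along lines
-/

set_option autoImplicit false

open FF

namespace Pool.Agent.J4H13.BD

open Pool.Agent.J4H13.BC Pool.Agent.J4H13.LA Pool.Agent.W602.GT Pool.Agent.W603.LV
  Pool.Agent.Helper397.HK

variable {K : Type} [Field K] [Algebra ℂ K]

/-- **Double planes branched along lines.** -/
theorem good_lines' {x y : K} (hxy : AlgebraicIndependent ℂ ![x, y]) {d : ℕ}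
    {l : Fin (2 * d) → V3} (hl : ∀ i j, i ≠ j → LinearIndependent ℂ ![l i, l j]) {v : K}
    (hpg : NoTwo x y v) (hq : NoOne x y v) (hv : v ^ 2 = ∏ i, ev (gp x y) (l i)) :
    Good x y v := by
  classical
  rcases Nat.eq_zero_or_pos d with rfl | hd
  · have hx : x ∈ IntermediateField.adjoin ℂ {x, y} :=
      IntermediateField.subset_adjoin _ _ (by simp)
    have hy : y ∈ IntermediateField.adjoin ℂ {x, y} :=
      IntermediateField.subset_adjoin _ _ (by simp)
    refine ⟨_, hx, hy, ?_, 2, embed_of_two hxy hx hy⟩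
    have hv1 : v ^ 2 = 1 := hv
    have hv2 : (v - 1) * (v + 1) = 0 := by linear_combination hv1
    rcases mul_eq_zero.1 hv2 with h | h
    · rw [sub_eq_zero.1 h]
      exact one_mem _
    · rw [eq_neg_of_add_eq_zero_left h]
      exact neg_mem (one_mem _)
  have hl0 : ∀ i, l i ≠ 0 := by
    intro i
    obtain ⟨j, hj⟩ : ∃ j : Fin (2 * d), i ≠ j := by
      by_cases h0 : i = ⟨0, by omega⟩
      · refine ⟨⟨1, by omega⟩, ?_⟩
        rw [h0]
        intro h
        simp at h
      · exact ⟨_, h0⟩
    exact (hl i j hj).ne_zero 0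
  have hv0 : v ≠ 0 := by
    rintro rfl
    have h1 : (∏ i, ev (gp x y) (l i)) = 0 := by
      rw [← hv]
      ring
    obtain ⟨i, -, hi⟩ := Finset.prod_eq_zero_iff.1 h1
    exact ev_gp_ne_zero hxy (hl0 i) hi
  rcases Nat.lt_or_ge d 2 with hd2 | hd2
  · -- two lines
    obtain rfl : d = 1 := by omega
    have h01 : LinearIndependent ℂ ![l 0, l 1] := hl 0 1 (by decide)
    obtain ⟨m, hm⟩ := exists_linearIndependent_cons_of_lt_finrank (R := ℂ) (M := V3) h01 (by simp)
    have hm' : LinearIndependent ℂ ![m, l 0, l 1] := hm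
    have hm3 : LinearIndependent ℂ ![l 0, m, l 1] := by
      have h2 := hm'.comp ![1, 0, 2] (by decide)
      convert h2 using 1
      ext i
      fin_cases i <;> rfl
    refine good_one hxy (m := ![l 0, m, l 1]) hm3 (d := 1) (l := l) hl0 {0} ?_ ?_ ?_
    · intro i hi
      rw [Finset.mem_singleton] at hi
      rw [hi]
      exact Submodule.subset_span (by simp)
    · rw [Finset.card_singleton]
    · rw [hv, Finset.prod_singleton]
      exact Fin.prod_univ_two _
  -- a point of high multiplicity
  obtain ⟨W, hW, hcard⟩ : ∃ W : Submodule ℂ V3, Module.finrank ℂ W ≤ 2 ∧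
      2 * d - 2 ≤ (thr l W).card := by
    rcases Nat.lt_or_ge d 3 with hd3 | hd3
    · obtain rfl : d = 2 := by omega
      have h01 : LinearIndependent ℂ ![l 0, l 1] := hl 0 1 (by decide)
      refine ⟨pt l 0 1, (finrank_pt h01).le, ?_⟩
      have h1 : ({0, 1} : Finset (Fin (2 * 2))) ⊆ thr l (pt l 0 1) := by
        intro k hk
        rw [mem_thr]
        rw [Finset.mem_insert, Finset.mem_singleton] at hk
        rcases hk with rfl | rfl
        · exact mem_pt_left _ _
        · exact mem_pt_right _ _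
      have h2 := Finset.card_le_card h1
      rw [Finset.card_pair (by decide)] at h2
      exact h2
    · exact exists_point' hxy hd3 hl hpg hv0 hv
  obtain ⟨i, hi, j, hj, hij⟩ := Finset.one_lt_card.1 (by omega : 1 < (thr l W).card)
  have hWpt : W = Submodule.span ℂ {l i, l j} :=
    eq_pt hW (hl i j hij) ((mem_thr l).1 hi) ((mem_thr l).1 hj)
  have hTspan : ∀ k ∈ thr l W, l k ∈ Submodule.span ℂ {l i, l j} := by
    intro k hk
    rw [← hWpt]
    exact (mem_thr l).1 hk
  have hnotspan : ∀ k, k ∉ thr l W → l k ∉ Submodule.span ℂ {l i, l j} := by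
    intro k hk h
    rw [← hWpt] at h
    exact hk ((mem_thr l).2 h)
  have hcompl : ((thr l W)ᶜ).card + (thr l W).card = 2 * d := by
    rw [Finset.card_compl, Fintype.card_fin]
    have := Finset.card_le_univ (thr l W)
    rw [Fintype.card_fin] at this
    omega
  have hprod : ∏ k, ev (gp x y) (l k) = (∏ k ∈ thr l W, ev (gp x y) (l k)) *
      ∏ k ∈ (thr l W)ᶜ, ev (gp x y) (l k) := (Finset.prod_mul_prod_compl _ _).symm
  rcases (by omega : ((thr l W)ᶜ).card = 0 ∨ ((thr l W)ᶜ).card = 1 ∨ ((thr l W)ᶜ).card = 2) with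
    h0 | h1 | h2
  · exfalso
    have hall : ∀ k, l k ∈ Submodule.span ℂ {l i, l j} := by
      intro k
      apply hTspan
      by_contra hk
      have := Finset.card_eq_zero.1 h0
      rw [Finset.compl_eq_empty_iff] at this
      rw [this] at hk
      exact hk (Finset.mem_univ k)
    exact no_pencil' hxy hd2 hl hq hv0 hv (hl i j hij) hall
  · obtain ⟨k, hk⟩ := Finset.card_eq_one.1 h1
    have hkn : k ∉ thr l W := by
      rw [← Finset.mem_compl, hk]
      exact Finset.mem_singleton_self k
    refine good_one hxy (m := ![l i, l j, l k]) (li_three (hl i j hij) (hnotspan k hkn)) (d := d)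
      (l := l) hl0 (thr l W) hTspan (by omega) ?_
    rw [hv, hprod, hk, Finset.prod_singleton]
    rfl
  · obtain ⟨k, k', hkk, hk⟩ := Finset.card_eq_two.1 h2
    have hkn : k ∉ thr l W := by
      rw [← Finset.mem_compl, hk]
      simp
    refine good_two hxy (m := ![l i, l j, l k]) (li_three (hl i j hij) (hnotspan k hkn)) (d := d)
      (l := l) hl0 (thr l W) hTspan (by omega) (m' := l k') (hl k' k (Ne.symm hkk)) ?_
    rw [hv, hprod, hk, Finset.prod_pair hkk]
    rfl

/-- Square roots of arbitrary products of linear forms. -/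
theorem good_sqrt' {x y : K} (hxy : AlgebraicIndependent ℂ ![x, y]) {ι : Type} [DecidableEq ι]
    {l : ι → V3} (hl0 : ∀ i, l i ≠ 0) (T : Finset ι) {w : K} (hpg : NoTwo x y w)
    (hq : NoOne x y w) (hw : w ^ 2 = ∏ i ∈ T, ev (gp x y) (l i)) : Good x y w := by
  classical
  -- an even number of lines
  obtain ⟨ι', _, l₁, hl₁, T₁, N, hN, hT₁⟩ : ∃ (ι' : Type) (_ : DecidableEq ι') (l₁ : ι' → V3)
      (_ : ∀ i, l₁ i ≠ 0) (T₁ : Finset ι') (N : ℕ), T₁.card = 2 * N ∧
      ∏ i ∈ T₁, ev (gp x y) (l₁ i) = ∏ i ∈ T, ev (gp x y) (l i) := by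
    obtain ⟨N, hN | hN⟩ := Nat.even_or_odd' T.card
    · exact ⟨ι, inferInstance, l, hl0, T, N, hN, rfl⟩
    · refine ⟨Option ι, inferInstance, fun i => i.elim (Pi.single 0 1) l, ?_,
        Finset.insertNone T, N + 1, ?_, ?_⟩
      · intro i
        cases i with
        | none =>
          intro h
          have := congrFun h 0
          simp at this
        | some i => exact hl0 i
      · rw [Finset.card_insertNone, hN]
        ring
      · rw [Finset.prod_insertNone]
        change ev (gp x y) (Pi.single 0 1) * _ = _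
        rw [ev_single]
        change 1 * _ = _
        rw [one_mul]
        rfl
  have hw0 : w ≠ 0 := by
    rintro rfl
    have h1 : ∏ i ∈ T, ev (gp x y) (l i) = 0 := by
      rw [← hw]
      ring
    obtain ⟨i, -, hi⟩ := Finset.prod_eq_zero_iff.1 h1
    exact ev_gp_ne_zero hxy (hl0 i) hi
  obtain ⟨d, l', hl', g, v, hg, hwg, hv⟩ := reduce hxy hl₁ N T₁ hN w (by rw [hw, hT₁])
  have hgE : g ∈ IntermediateField.adjoin ℂ ({x, y} : Set K) :=
    hg _ (IntermediateField.subset_adjoin _ _ (Or.inl rfl))
      (IntermediateField.subset_adjoin _ _ (Or.inr rfl))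
  have hg0 : g ≠ 0 := by
    rintro rfl
    apply hw0
    rw [hwg, zero_mul]
  have hpg' : NoTwo x y v := by
    intro A hA hreg
    have h1 := hpg (A * g) (mul_mem hA hgE) (fun P hP => by
      have h2 : A * g / w = A / v := by
        rw [hwg, mul_comm A g, mul_div_mul_left _ _ hg0]
      rw [h2]
      exact hreg P hP)
    exact (mul_eq_zero.1 h1).resolve_right hg0
  have hq' : NoOne x y v := by
    intro A hA B hB hreg
    have h1 := hq (A * g) (mul_mem hA hgE) (B * g) (mul_mem hB hgE) (fun P hP D hD => by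
      have h2 : (A * g * D x + B * g * D y) / w = (A * D x + B * D y) / v := by
        rw [hwg, show A * g * D x + B * g * D y = g * (A * D x + B * D y) by ring,
          mul_div_mul_left _ _ hg0]
      rw [h2]
      exact hreg P hP D hD)
    exact ⟨(mul_eq_zero.1 h1.1).resolve_right hg0, (mul_eq_zero.1 h1.2).resolve_right hg0⟩
  obtain ⟨L, hx, hy, hvL, hL⟩ := good_lines' hxy hl' hpg' hq' hv
  exact ⟨L, hx, hy, by rw [hwg]; exact mul_mem (hg L hx hy) hvL, hL⟩

section forms

variable {x y : K} {n : ℕ} {c : Fin n → ℚ} {g : Fin n → K ≃ₐ[ℂ] K}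

lemma fix_adjoin {σ : K ≃ₐ[ℂ] K} (hx : σ x = x) (hy : σ y = y) :
    ∀ z ∈ IntermediateField.adjoin ℂ ({x, y} : Set K), σ z = z := by
  have h1 : IntermediateField.adjoin ℂ ({x, y} : Set K) ≤
      IntermediateField.fixedField (Subgroup.zpowers σ) := by
    rw [IntermediateField.adjoin_le_iff]
    have h2 : ∀ z, σ z = z → z ∈ IntermediateField.fixedField (Subgroup.zpowers σ) := by
      intro z hz
      rw [IntermediateField.mem_fixedField_iff]
      intro τ hτ
      have h3 : Subgroup.zpowers σ ≤ MulAction.stabilizer (K ≃ₐ[ℂ] K) z := by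
        rw [Subgroup.zpowers_le, MulAction.mem_stabilizer_iff]
        exact hz
      exact h3 hτ
    rintro z (rfl | rfl)
    · exact h2 _ hx
    · exact h2 _ hy
  intro z hz
  exact (IntermediateField.mem_fixedField_iff _ _).1 (h1 hz) σ (Subgroup.mem_zpowers σ)

lemma wedge_conj {σ : K ≃ₐ[ℂ] K} (hx : σ x = x) (hy : σ y = y) (D₀ D₁ : Derivation ℂ K K) :
    σ (wedge (conjDer σ D₀) (conjDer σ D₁) x y) = wedge D₀ D₁ x y := by
  unfold wedge
  simp only [conjDer_apply, hx, hy, map_sub, map_mul, AlgEquiv.apply_symm_apply]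

/-- The forms with the character of a square root. -/
lemma noTwo_of_kills (hxy : AlgebraicIndependent ℂ ![x, y]) (hg : ∀ j, g j x = x ∧ g j y = y)
    (h2 : KillsTwo c g) {w : K}
    (hne : ∑ j, (c j : K) * g j w ≠ 0) (hsg : ∀ j, g j w = w ∨ g j w = -w) : NoTwo x y w := by
  intro A hA hreg
  by_contra hA0
  have hw0 : w ≠ 0 := by
    rintro rfl
    apply hne
    refine Finset.sum_eq_zero fun j _ => ?_
    rw [map_zero, mul_zero]
  obtain ⟨ω, hω⟩ : ∃ ω : (Fin 2 → Derivation ℂ K K) → K,
    ω = fun D => wedge (D 0) (D 1) x y * (A / w) := ⟨_, rfl⟩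
  have hpluri : IsPluri 1 ω := by
    intro M D
    rw [hω]
    simp only [wedge, Fin.sum_univ_two, Derivation.add_apply, Derivation.smul_apply, smul_eq_mul,
      Matrix.det_fin_two, pow_one]
    ring
  obtain ⟨D, h0x, h0y, h1x, h1y⟩ := exists_ders hxy
  have h3 := h2 ω hpluri (fun P hP => by
    rw [hω]
    exact hreg P hP) D
  have h4 : ∀ j, g j (ω fun i => conjDer (g j) (D i)) = A / w ^ 2 * g j w := by
    intro j
    rw [hω]
    have h5 : g j (wedge (conjDer (g j) (D 0)) (conjDer (g j) (D 1)) x y * (A / w)) =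
        wedge (D 0) (D 1) x y * (A / g j w) := by
      rw [map_mul, wedge_conj (hg j).1 (hg j).2, map_div₀, fix_adjoin (hg j).1 (hg j).2 A hA]
    change g j (wedge (conjDer (g j) (D 0)) (conjDer (g j) (D 1)) x y * (A / w)) = _
    rw [h5]
    simp only [wedge, h0x, h0y, h1x, h1y]
    rcases hsg j with h6 | h6 <;> rw [h6] <;> field_simp <;> ring
  rw [Finset.sum_congr rfl fun j _ => by rw [h4 j]] at h3
  have h7 : A / w ^ 2 * ∑ j, (c j : K) * g j w = 0 := by
    rw [← h3, Finset.mul_sum]
    refine Finset.sum_congr rfl fun j _ => ?_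
    ring
  rcases mul_eq_zero.1 h7 with h8 | h8
  · exact hA0 ((div_eq_zero_iff.1 h8).resolve_right (pow_ne_zero 2 hw0))
  · exact hne h8

lemma noOne_of_kills (hxy : AlgebraicIndependent ℂ ![x, y]) (hg : ∀ j, g j x = x ∧ g j y = y)
    (h1 : KillsOne c g) {w : K}
    (hne : ∑ j, (c j : K) * g j w ≠ 0) (hsg : ∀ j, g j w = w ∨ g j w = -w) : NoOne x y w := by
  intro A hA B hB hreg
  have hw0 : w ≠ 0 := by
    rintro rfl
    apply hne
    refine Finset.sum_eq_zero fun j _ => ?_
    rw [map_zero, mul_zero]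
  obtain ⟨η, hη⟩ : ∃ η : Derivation ℂ K K →ₗ[K] K,
      ∀ D, η D = (A * D x + B * D y) / w := by
    refine ⟨{ toFun := fun D => (A * D x + B * D y) / w
              map_add' := fun D D' => by
                simp only [Derivation.add_apply]
                ring
              map_smul' := fun c D => by
                simp only [Derivation.smul_apply, smul_eq_mul, RingHom.id_apply]
                ring }, fun D => rfl⟩
  have h3 := h1 η (fun P hP D hD => by
    rw [hη]
    exact hreg P hP D hD)
  have h4 : ∀ (D : Derivation ℂ K K) j, g j (η (conjDer (g j) D)) =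
      (A * D x + B * D y) / w ^ 2 * g j w := by
    intro D j
    rw [hη, map_div₀, map_add, map_mul, map_mul, fix_adjoin (hg j).1 (hg j).2 A hA,
      fix_adjoin (hg j).1 (hg j).2 B hB, conjDer_apply, conjDer_apply, (hg j).1, (hg j).2,
      AlgEquiv.apply_symm_apply, AlgEquiv.apply_symm_apply]
    rcases hsg j with h6 | h6 <;> rw [h6] <;> field_simp
  have h5 : ∀ D : Derivation ℂ K K, A * D x + B * D y = 0 := by
    intro D
    have h6 := h3 D
    rw [Finset.sum_congr rfl fun j _ => by rw [h4 D j]] at h6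
    have h7 : (A * D x + B * D y) / w ^ 2 * ∑ j, (c j : K) * g j w = 0 := by
      rw [← h6, Finset.mul_sum]
      refine Finset.sum_congr rfl fun j _ => ?_
      ring
    rcases mul_eq_zero.1 h7 with h8 | h8
    · exact (div_eq_zero_iff.1 h8).resolve_right (pow_ne_zero 2 hw0)
    · exact absurd h8 hne
  obtain ⟨D, h0x, h0y, h1x, h1y⟩ := exists_ders hxy
  constructor
  · have h8 := h5 (D 0)
    rw [h0x, h0y] at h8
    linear_combination h8
  · have h8 := h5 (D 1)
    rw [h1x, h1y] at h8
    linear_combination h8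

end forms

end Pool.Agent.J4H13.BD
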